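import Pool.Agent.H3.LO.Tg
import Pool.Agent.H4.LO.QA
import Pool.Agent.H4.T2.MC

/-!
# Alperin–McKay reduction, local form, module LN: group theory of the factor group

Copy of `Pool.Agent.H4.T2.LN` for classes of triples.
-/

set_option autoImplicit false

open scoped Classical ComplexConjugate

namespace Pool.Agent.H4.LO.LN

open AMc AMe AMt Pool.Agent.H4.T2.MM Pool.Agent.H4.T2.MC

section

variable {Γ : Type} [Group Γ]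

/-- the index in a product of two subgroups -/
theorem rel_prod {K D V : Subgroup Γ} (hD : D ≤ V)
    (h : ∀ g ∈ V, ∃ k ∈ K, ∃ d ∈ D, g = k * d) : K.relIndex V = K.relIndex D := by
  have hb : Function.Bijective (Subgroup.quotientSubgroupOfEmbeddingOfLE K hD) := by
    refine ⟨(Subgroup.quotientSubgroupOfEmbeddingOfLE K hD).injective, ?_⟩
    intro x
    obtain ⟨g, rfl⟩ := QuotientGroup.mk_surjective x
    obtain ⟨k, hk, d, hd, hg⟩ := h (g⁻¹ : V) (g⁻¹ : V).2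
    refine ⟨QuotientGroup.mk ⟨d⁻¹, D.inv_mem hd⟩, ?_⟩
    rw [Subgroup.quotientSubgroupOfEmbeddingOfLE_apply_mk, QuotientGroup.eq,
      Subgroup.mem_subgroupOf]
    have h2 : ((g : Γ))⁻¹ = k * d := hg
    have h3 : (g : Γ) = d⁻¹ * k⁻¹ := by
      rw [← inv_inv (g : Γ), h2, mul_inv_rev]
    show (d⁻¹)⁻¹ * (g : Γ) ∈ K
    rw [h3, inv_inv, mul_inv_cancel_left]
    exact K.inv_mem hk
  exact (Nat.card_congr (Equiv.ofBijective _ hb)).symm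

/-- normalisers in a finite group -/
theorem mem_nor [Finite Γ] {P : Subgroup Γ} {a : Γ} (h : ∀ u ∈ P, a * u * a⁻¹ ∈ P) :
    a ∈ Subgroup.normalizer (P : Set Γ) :=
  Subgroup.mem_normalizer_fintype h

theorem nor_conj {P : Subgroup Γ} {a u : Γ} (ha : a ∈ Subgroup.normalizer (P : Set Γ))
    (hu : u ∈ P) : a * u * a⁻¹ ∈ P :=
  (Subgroup.mem_normalizer_iff.1 ha u).1 hu

/-- products of subgroups, the second one normalises the first -/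
theorem mem_sup_nor {H L : Subgroup Γ} (h : ∀ b ∈ L, ∀ a ∈ H, b * a * b⁻¹ ∈ H) {x : Γ} :
    x ∈ H ⊔ L ↔ ∃ a ∈ H, ∃ b ∈ L, x = a * b := by
  constructor
  · intro hx
    have hle : L ≤ Subgroup.normalizer (H : Set Γ) := by
      intro b hb
      rw [Subgroup.mem_normalizer_iff]
      intro g
      refine ⟨fun hg => h b hb g hg, fun hg => ?_⟩
      have := h b⁻¹ (L.inv_mem hb) _ hg
      have e : b⁻¹ * (b * g * b⁻¹) * b⁻¹⁻¹ = g := by group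
      rwa [e] at this
    have h1 := Subgroup.coe_mul_of_right_le_normalizer_left H L hle
    have h2 : x ∈ ((H ⊔ L : Subgroup Γ) : Set Γ) := hx
    rw [h1] at h2
    obtain ⟨a, ha, b, hb, hab⟩ := h2
    exact ⟨a, ha, b, hb, hab.symm⟩
  · rintro ⟨a, ha, b, hb, rfl⟩
    exact Subgroup.mul_mem_sup ha hb

end

section

variable {F : Type} [Field F] {π : integralClosure ℤ ℂ →+* F} {ℓ : ℕ} [Fact ℓ.Prime]
  {𝓓 : Kl} {n : ℕ} {Γ : Type} [Group Γ] [Fintype Γ]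
  {J A B P Z : Subgroup Γ} {ν θA ϑ : Γ → ℂ}

/-- conjugation by elements of `J` -/
theorem conjA (h : LVx π ℓ 𝓓 n J A B P Z ν θA ϑ) {g a : Γ} (hg : g ∈ J) (ha : a ∈ A) :
    g * a * g⁻¹ ∈ A := h.nA.nor g hg a ha

theorem conjB (h : LVx π ℓ 𝓓 n J A B P Z ν θA ϑ) {g b : Γ} (hg : g ∈ J) (hb : b ∈ B) :
    g * b * g⁻¹ ∈ B := h.nB.nor g hg b hb

/-- the elements of `P B` -/
theorem memE (h : LVx π ℓ 𝓓 n J A B P Z ν θA ϑ) {x : Γ} :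
    x ∈ P ⊔ B ↔ ∃ b ∈ B, ∃ d ∈ P, x = b * d := by
  rw [sup_comm]
  exact mem_sup_nor fun d hd b hb => conjB h (h.PJ hd) hb

theorem memE' (h : LVx π ℓ 𝓓 n J A B P Z ν θA ϑ) {x : Γ} :
    x ∈ P ⊔ B ↔ ∃ d ∈ P, ∃ b ∈ B, x = d * b := by
  rw [memE h]
  constructor
  · rintro ⟨b, hb, d, hd, rfl⟩
    refine ⟨d, hd, d⁻¹ * b * d, ?_, by group⟩
    have := conjB h (J.inv_mem (h.PJ hd)) hb
    rwa [inv_inv] at this
  · rintro ⟨d, hd, b, hb, rfl⟩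
    exact ⟨d * b * d⁻¹, conjB h (h.PJ hd) hb, d, hd, by group⟩

/-- the elements of `W B P` -/
theorem memY (h : LVx π ℓ 𝓓 n J A B P Z ν θA ϑ) {W : Subgroup Γ} (hWA : W ≤ A)
    (hWP : ∀ d ∈ P, ∀ w ∈ W, d * w * d⁻¹ ∈ W) {x : Γ} :
    x ∈ W ⊔ B ⊔ P ↔ ∃ w ∈ W, ∃ b ∈ B, ∃ d ∈ P, x = w * b * d := by
  have hc : ∀ a ∈ W, ∀ b ∈ B, a * b = b * a := fun a ha b hb => h.com a (hWA ha) b hb
  rw [mem_sup_nor]
  · constructor
    · rintro ⟨a, ha, d, hd, rfl⟩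
      obtain ⟨w, hw, b, hb, rfl⟩ := (mem_sup_com hc).1 ha
      exact ⟨w, hw, b, hb, d, hd, rfl⟩
    · rintro ⟨w, hw, b, hb, d, hd, rfl⟩
      exact ⟨w * b, (mem_sup_com hc).2 ⟨w, hw, b, hb, rfl⟩, d, hd, rfl⟩
  · intro d hd a ha
    obtain ⟨w, hw, b, hb, rfl⟩ := (mem_sup_com hc).1 ha
    refine (mem_sup_com hc).2 ⟨d * w * d⁻¹, hWP d hd w hw, d * b * d⁻¹,
      conjB h (h.PJ hd) hb, by group⟩

/-- the key argument -/
theorem key (h : LVx π ℓ 𝓓 n J A B P Z ν θA ϑ) {a : Γ} (ha : a ∈ A)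
    (hE : ∀ u ∈ P, a * u * a⁻¹ ∈ P ⊔ B) : a ∈ Subgroup.normalizer (P : Set Γ) := by
  apply mem_nor
  intro u hu
  obtain ⟨u₁, hu₁, b₁, hb₁, h1⟩ := (memE' h).1 (hE u hu)
  have hcA : a * u * a⁻¹ * u⁻¹ ∈ A := by
    have h2 := A.mul_mem ha (conjA h (h.PJ hu) (A.inv_mem ha))
    have e : a * (u * a⁻¹ * u⁻¹) = a * u * a⁻¹ * u⁻¹ := by group
    rwa [e] at h2
  have hb2 : (u * b₁ * u⁻¹)⁻¹ ∈ B := B.inv_mem (conjB h (h.PJ hu) hb₁)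
  have h3 : a * u * a⁻¹ * u⁻¹ * (u * b₁ * u⁻¹)⁻¹ = u₁ * u⁻¹ := by
    rw [h1]; group
  have h4 : a * u * a⁻¹ * u⁻¹ * (u * b₁ * u⁻¹)⁻¹ ∈ P := by
    rw [h3]
    exact P.mul_mem hu₁ (P.inv_mem hu)
  obtain ⟨z, hz, hz1, -⟩ := h.dec _ hcA _ hb2 h4
  have hzc := h.cen.cen z hz
  have huJ := h.PJ hu
  have haJ := h.nA.le ha
  -- `v = a u a⁻¹ z`
  have hv : a * u * a⁻¹ * z ∈ P := by
    have h5 := P.mul_mem hz1 hu
    have e : a * u * a⁻¹ * u⁻¹ * z * u = a * u * a⁻¹ * z := by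
      rw [mul_assoc (a * u * a⁻¹ * u⁻¹) z u, hzc u huJ]; group
    rwa [e] at h5
  have hcomm : Commute (a * u * a⁻¹) z := by
    have h6 := hzc (a * u * a⁻¹) (J.mul_mem (J.mul_mem haJ huJ) (J.inv_mem haJ))
    exact h6.symm
  obtain ⟨i, hi⟩ := (IsPGroup.iff_orderOf.1 h.pP) ⟨u, hu⟩
  obtain ⟨j, hj⟩ := (IsPGroup.iff_orderOf.1 h.pP) ⟨_, hv⟩
  rw [Subgroup.orderOf_mk] at hi hj
  have hi' : orderOf (a * u * a⁻¹) = ℓ ^ i := by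
    rw [← hi]
    exact (MulAut.conj a).orderOf_eq u
  have hzP : z ∈ P := by
    apply h.zP z hz
    have e : z = (a * u * a⁻¹)⁻¹ * (a * u * a⁻¹ * z) := by group
    have hcomm2 : Commute (a * u * a⁻¹)⁻¹ (a * u * a⁻¹ * z) :=
      ((Commute.refl (a * u * a⁻¹)).mul_right hcomm).inv_left
    have hd := hcomm2.orderOf_mul_dvd_lcm
    rw [← e, orderOf_inv, hi', hj] at hd
    have hd2 : Nat.lcm (ℓ ^ i) (ℓ ^ j) ∣ ℓ ^ (i + j) :=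
      Nat.lcm_dvd (pow_dvd_pow _ (Nat.le_add_right _ _)) (pow_dvd_pow _ (Nat.le_add_left _ _))
    obtain ⟨k, -, hk⟩ := (Nat.dvd_prime_pow (Fact.out : ℓ.Prime)).1 (hd.trans hd2)
    exact ⟨k, hk⟩
  have h7 := P.mul_mem hv (P.inv_mem hzP)
  rwa [mul_inv_cancel_right] at h7

theorem nor_PB (h : LVx π ℓ 𝓓 n J A B P Z ν θA ϑ) {g : Γ} (hg : g ∈ J)
    (hgP : g ∈ Subgroup.normalizer (P : Set Γ)) :
    g ∈ Subgroup.normalizer ((P ⊔ B : Subgroup Γ) : Set Γ) := by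
  apply mem_nor
  intro u hu
  obtain ⟨d, hd, b, hb, rfl⟩ := (memE' h).1 hu
  refine (memE' h).2 ⟨g * d * g⁻¹, nor_conj hgP hd, g * b * g⁻¹, conjB h hg hb, by group⟩

theorem Z_le (h : LVx π ℓ 𝓓 n J A B P Z ν θA ϑ) :
    Z ≤ A ⊓ Subgroup.normalizer (P : Set Γ) := by
  intro z hz
  refine ⟨h.ZA hz, ?_⟩
  apply mem_nor
  intro u hu
  rw [h.cen.cen z hz u (h.PJ hu), mul_inv_cancel_right]
  exact hu

theorem P_nor (h : LVx π ℓ 𝓓 n J A B P Z ν θA ϑ) :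
    ∀ d ∈ P, ∀ w ∈ A ⊓ Subgroup.normalizer (P : Set Γ),
      d * w * d⁻¹ ∈ A ⊓ Subgroup.normalizer (P : Set Γ) := by
  intro d hd w hw
  refine ⟨conjA h (h.PJ hd) hw.1, ?_⟩
  have hdN : d ∈ Subgroup.normalizer (P : Set Γ) := Subgroup.le_normalizer hd
  exact (Subgroup.normalizer (P : Set Γ)).mul_mem ((Subgroup.normalizer (P : Set Γ)).mul_mem
    hdN hw.2) ((Subgroup.normalizer (P : Set Γ)).inv_mem hdN)

/-- step 1 -/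
theorem step1 (h : LVx π ℓ 𝓓 n J A B P Z ν θA ϑ) :
    (A ⊔ B ⊔ P) ⊓ Subgroup.normalizer ((P ⊔ B : Subgroup Γ) : Set Γ) =
      A ⊓ Subgroup.normalizer (P : Set Γ) ⊔ B ⊔ P := by
  have hB : B ≤ Subgroup.normalizer ((P ⊔ B : Subgroup Γ) : Set Γ) :=
    le_sup_right.trans Subgroup.le_normalizer
  have hP : P ≤ Subgroup.normalizer ((P ⊔ B : Subgroup Γ) : Set Γ) :=
    le_sup_left.trans Subgroup.le_normalizer
  apply le_antisymm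
  · rintro g ⟨hg, hgN⟩
    obtain ⟨a, ha, b, hb, d, hd, rfl⟩ :=
      (memY h le_rfl (fun d hd w hw => conjA h (h.PJ hd) hw)).1 hg
    refine (memY h inf_le_left (P_nor h)).2 ⟨a, ⟨ha, ?_⟩, b, hb, d, hd, rfl⟩
    have haN : a ∈ Subgroup.normalizer ((P ⊔ B : Subgroup Γ) : Set Γ) := by
      have h1 := (Subgroup.normalizer ((P ⊔ B : Subgroup Γ) : Set Γ)).mul_mem hgN
        ((Subgroup.normalizer ((P ⊔ B : Subgroup Γ) : Set Γ)).inv_mem (hP hd))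
      rw [mul_inv_cancel_right] at h1
      have h2 := (Subgroup.normalizer ((P ⊔ B : Subgroup Γ) : Set Γ)).mul_mem h1
        ((Subgroup.normalizer ((P ⊔ B : Subgroup Γ) : Set Γ)).inv_mem (hB hb))
      rwa [mul_inv_cancel_right] at h2
    exact key h ha fun u hu => nor_conj haN ((le_sup_left : P ≤ P ⊔ B) hu)
  · refine sup_le (sup_le ?_ ?_) ?_
    · intro w hw
      exact ⟨(le_sup_left.trans le_sup_left : A ≤ A ⊔ B ⊔ P) hw.1,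
        nor_PB h (h.nA.le hw.1) hw.2⟩
    · exact le_inf (le_sup_right.trans le_sup_left) hB
    · exact le_inf le_sup_right hP

/-- step 5: the core -/
theorem core5 (h : LVx π ℓ 𝓓 n J A B P Z ν θA ϑ) {W : Subgroup Γ} (hZW : Z ≤ W) (hWA : W ≤ A)
    (hPW : P ⊓ A ≤ W) (hWP : ∀ d ∈ P, ∀ w ∈ W, d * w * d⁻¹ ∈ W) :
    padicValNat ℓ ((P ⊔ B).relIndex (W ⊔ B ⊔ P)) = padicValNat ℓ ((P ⊓ A).relIndex W) := by
  have h1 : (P ⊔ B).relIndex (W ⊔ B ⊔ P) = (P ⊔ B).relIndex W := by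
    apply rel_prod (le_sup_left.trans le_sup_left)
    intro g hg
    obtain ⟨w, hw, b, hb, d, hd, hg1⟩ := (memY h hWA hWP).1 ((W ⊔ B ⊔ P).inv_mem hg)
    refine ⟨d⁻¹ * b⁻¹, (memE' h).2 ⟨d⁻¹, P.inv_mem hd, b⁻¹, B.inv_mem hb, rfl⟩, w⁻¹,
      W.inv_mem hw, ?_⟩
    rw [← inv_inv g, hg1]
    group
  have h2 : (P ⊔ B).relIndex W = ((P ⊔ B) ⊓ W).relIndex W :=
    (Subgroup.inf_relIndex_right (P ⊔ B) W).symm
  have h3 : P ⊓ A ≤ (P ⊔ B) ⊓ W := le_inf (inf_le_left.trans le_sup_left) hPW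
  have h4 : (P ⊓ A).relIndex ((P ⊔ B) ⊓ W) * ((P ⊔ B) ⊓ W).relIndex W = (P ⊓ A).relIndex W :=
    Subgroup.relIndex_mul_relIndex _ _ _ h3 inf_le_right
  have h5 : (P ⊓ A).relIndex ((P ⊔ B) ⊓ W) = (P ⊓ A).relIndex Z := by
    apply rel_prod (le_inf (h.ZB.trans le_sup_right) hZW)
    rintro w ⟨hwE, hwW⟩
    obtain ⟨d, hd, b, hb, rfl⟩ := (memE' h).1 hwE
    have h6 : d * b * b⁻¹ ∈ P := by rwa [mul_inv_cancel_right]
    obtain ⟨z, hz, hz1, -⟩ := h.dec (d * b) (hWA hwW) b⁻¹ (B.inv_mem hb) h6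
    exact ⟨d * b * z, ⟨hz1, A.mul_mem (hWA hwW) (h.ZA hz)⟩, z⁻¹, Z.inv_mem hz,
      (mul_inv_cancel_right _ _).symm⟩
  have h6 : ¬ ℓ ∣ (P ⊓ A).relIndex Z := by
    rw [← Subgroup.inf_relIndex_right]
    apply not_dvd_relIndex inf_le_right
    intro z hz hk
    exact ⟨⟨h.zP z hz hk, h.ZA hz⟩, hz⟩
  rw [h1, h2, ← h4, h5, padicValNat.mul, padicValNat.eq_zero_of_not_dvd h6, zero_add]
  · intro h0
    exact h6 (h0 ▸ dvd_zero ℓ)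
  · exact rel_ne_zero inf_le_right

theorem relB (h : LVx π ℓ 𝓓 n J A B P Z ν θA ϑ) : ∃ k, B.relIndex (P ⊔ B) = ℓ ^ k := by
  have h1 : B.relIndex (P ⊔ B) = B.relIndex P :=
    rel_prod le_sup_left fun g hg => (memE h).1 hg
  obtain ⟨m, hm⟩ := IsPGroup.iff_card.1 h.pP
  have h2 : B.relIndex P ∣ ℓ ^ m := by
    rw [← hm]
    exact Subgroup.relIndex_dvd_card B P
  obtain ⟨k, -, hk⟩ := (Nat.dvd_prime_pow (Fact.out : ℓ.Prime)).1 h2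
  exact ⟨k, h1.trans hk⟩

end

section

variable {F : Type} [Field F] {π : integralClosure ℤ ℂ →+* F} {ℓ : ℕ} [Fact ℓ.Prime]
  {𝓓 : Kl} {n : ℕ} {Γ : Type} [Group Γ] [Fintype Γ]
  {J A B P Z : Subgroup Γ} {ν θA ϑ : Γ → ℂ} {H : Type} [Group H] [Fintype H] {p : H →* Γ}
  {i : B →* H} {τ : H → ℂ} {Q : Type} [Group Q] [Fintype Q] {q : H →* Q} {κ : A →* Q}
  {Zs : Subgroup Q} {νs : Q → ℂ}

theorem lift_k (hq : LQx π ℓ 𝓓 n J A B P Z ν θA ϑ p i τ q κ Zs νs) (a : A) {z : Q}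
    (hz : z ∈ Zs) : ∃ h, p h = a ∧ q h = κ a * z := by
  obtain ⟨h, h1, h2⟩ := hq.kt.ka a
  obtain ⟨c, h3, h4⟩ := hq.kt.zs z hz
  exact ⟨h * c, by rw [map_mul, h1, h3, mul_one], by rw [map_mul, h2, h4]⟩

/-- elements of `P` lift to elements of `ℓ`-power order -/
theorem lift_P (hq : LQx π ℓ 𝓓 n J A B P Z ν θA ϑ p i τ q κ Zs νs) {g : Γ} (hg : g ∈ P) :
    ∃ h, p h = g ∧ ∃ k : ℕ, orderOf (q h) = ℓ ^ k := by
  have hg1 : g ∈ p.range := by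
    rw [hq.kt.rng]
    exact hq.lv.PJ hg
  obtain ⟨h, rfl⟩ := hg1
  obtain ⟨r, hr⟩ := (IsPGroup.iff_orderOf.1 hq.lv.pP) ⟨_, hg⟩
  rw [Subgroup.orderOf_mk] at hr
  obtain ⟨s, t, ht, hst⟩ := Nat.exists_eq_pow_mul_and_not_dvd (orderOf_pos (q h)).ne' ℓ
    (Fact.out : ℓ.Prime).ne_one
  have hcop : Nat.Coprime t (orderOf (p h)) := by
    rw [hr]
    exact Nat.Coprime.pow_right r
      ((Nat.Prime.coprime_iff_not_dvd (Fact.out : ℓ.Prime)).2 ht).symm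
  obtain ⟨m, hm⟩ := exists_pow_eq_self_of_coprime hcop
  refine ⟨(h ^ t) ^ m, by rw [map_pow, map_pow, hm], ?_⟩
  have h1 : orderOf (q ((h ^ t) ^ m)) ∣ ℓ ^ s := by
    apply orderOf_dvd_of_pow_eq_one
    rw [map_pow, map_pow, ← pow_mul, ← pow_mul]
    have e : t * (m * ℓ ^ s) = orderOf (q h) * m := by rw [hst]; ring
    rw [e, pow_mul, pow_orderOf_eq_one, one_pow]
  obtain ⟨k, -, hk⟩ := (Nat.dvd_prime_pow (Fact.out : ℓ.Prime)).1 h1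
  exact ⟨k, hk⟩

/-- the facts on the factor group used below -/
structure Fa (ℓ : ℕ) {Γ : Type} [Group Γ] (J A B P Z W : Subgroup Γ) {H : Type} [Group H]
    (p : H →* Γ) {Q : Type} [Group Q] (q : H →* Q) (κ : A →* Q) (Zs Ps : Subgroup Q) :
    Prop where
  mem : ∀ V : Subgroup Γ, B ≤ V → V ≤ J → ∀ a, q a ∈ Vs p q V ↔ p a ∈ V
  nor : ∀ a, q a ∈ Subgroup.normalizer (Ps : Set Q) ↔
    p a ∈ Subgroup.normalizer ((P ⊔ B : Subgroup Γ) : Set Γ)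
  memP : ∀ b, b ∈ Ps ↔ b ∈ Vs p q (P ⊔ B) ∧ ∃ k : ℕ, orderOf b = ℓ ^ k
  pP : IsPGroup ℓ Ps
  mkW : ∀ g, g ∈ kW κ Zs W ↔ ∃ a : A, (a : Γ) ∈ W ∧ ∃ z ∈ Zs, g = κ a * z
  mkA : ∀ g, g ∈ kW κ Zs A ↔ ∃ a : A, ∃ z ∈ Zs, g = κ a * z
  mkW' : ∀ (a : A), ∀ z ∈ Zs, (κ a * z ∈ kW κ Zs W ↔ (a : Γ) ∈ W)
  rel : ∀ V V' : Subgroup Γ, B ≤ V → V ≤ V' → V' ≤ J →
    (Vs p q V).relIndex (Vs p q V') = V.relIndex V'
  val : ∀ V : Subgroup Γ, P ⊔ B ≤ V → V ≤ J →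
    padicValNat ℓ (Ps.relIndex (Vs p q V)) = padicValNat ℓ ((P ⊔ B).relIndex V)
  top : Vs p q J = ⊤
  topr : Zs.relIndex ⊤ = B.relIndex J
  VN : ∀ V : Subgroup Γ, P ⊔ B ≤ V → V ≤ J → Vs p q V ⊓ Subgroup.normalizer (Ps : Set Q) =
    Vs p q (V ⊓ Subgroup.normalizer ((P ⊔ B : Subgroup Γ) : Set Γ))

theorem mem_kW (LT : T_LT) (hq : LQx π ℓ 𝓓 n J A B P Z ν θA ϑ p i τ q κ Zs νs)
    {W : Subgroup Γ} (hZW : Z ≤ W) (hWA : W ≤ A) (g : Q) :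
    g ∈ kW κ Zs W ↔ ∃ a : A, (a : Γ) ∈ W ∧ ∃ z ∈ Zs, g = κ a * z := by
  obtain ⟨⟨-, h2, h3, -⟩, -⟩ := LT Γ A B J Z ν H p Q q κ Zs νs hq.kt W hZW hWA
  refine ⟨h3 g, ?_⟩
  rintro ⟨a, ha, z, hz, rfl⟩
  exact (h2 a z hz).2 ha

theorem facts (QG : T_QG) (LT : T_LT)
    (hq : LQx π ℓ 𝓓 n J A B P Z ν θA ϑ p i τ q κ Zs νs) :
    Fa ℓ J A B P Z (A ⊓ Subgroup.normalizer (P : Set Γ)) p q κ Zs (Qp ℓ p q (P ⊔ B)) := by
  have h := hq.lv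
  have hBE : B ≤ P ⊔ B := le_sup_right
  have hEJ : P ⊔ B ≤ J := sup_le h.PJ h.nB.le
  have hZW := Z_le h
  have hWA : A ⊓ Subgroup.normalizer (P : Set Γ) ≤ A := inf_le_left
  obtain ⟨hU, -, hV, hE, -⟩ := QG ℓ Γ B J ϑ H p i τ Q q Zs νs hq.qt
  obtain ⟨e1, e2, e3, e4, e5, -⟩ := hE (P ⊔ B) hBE hEJ (relB h)
  have htop : Vs p q J = ⊤ := hU
  have hJN := (e5 J hEJ le_rfl).2
  rw [hU, top_inf_eq] at hJN
  have hBJN : B ≤ J ⊓ Subgroup.normalizer ((P ⊔ B : Subgroup Γ) : Set Γ) :=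
    le_inf h.nB.le (hBE.trans Subgroup.le_normalizer)
  have hpJ : ∀ a, p a ∈ J := fun a => by
    rw [← hq.kt.rng]
    exact ⟨a, rfl⟩
  refine ⟨fun V h1 h2 => (hV V h1 h2).2.2.1, ?_, e3, e1, mem_kW LT hq hZW hWA, ?_, ?_, ?_, ?_,
    htop, ?_, ?_⟩
  · intro a
    rw [hJN, (hV _ hBJN inf_le_left).2.2.1]
    exact ⟨fun h1 => h1.2, fun h1 => ⟨hpJ a, h1⟩⟩
  · intro g
    rw [mem_kW LT hq h.ZA le_rfl]
    constructor
    · rintro ⟨a, -, z, hz, rfl⟩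
      exact ⟨a, z, hz, rfl⟩
    · rintro ⟨a, z, hz, rfl⟩
      exact ⟨a, a.2, z, hz, rfl⟩
  · exact (LT Γ A B J Z ν H p Q q κ Zs νs hq.kt _ hZW hWA).1.2.1
  · intro V V' h1 h2 h3
    obtain ⟨f1, f2, -, -⟩ := hV V h1 (h2.trans h3)
    obtain ⟨-, g2, -, -⟩ := hV V' (h1.trans h2) h3
    have h4 : Zs.relIndex (Vs p q V) * (Vs p q V).relIndex (Vs p q V') =
        Zs.relIndex (Vs p q V') := Subgroup.relIndex_mul_relIndex _ _ _ f1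
          (Subgroup.map_mono (Subgroup.comap_mono h2))
    have h5 : B.relIndex V * V.relIndex V' = B.relIndex V' :=
      Subgroup.relIndex_mul_relIndex _ _ _ h1 h2
    have h6 : Zs.relIndex (Vs p q V) = B.relIndex V := f2
    have h7 : Zs.relIndex (Vs p q V') = B.relIndex V' := g2
    rw [h6, h7, ← h5] at h4
    exact Nat.eq_of_mul_eq_mul_left (Nat.pos_of_ne_zero (rel_ne_zero h1)) h4
  · intro V h1 h2
    exact (e5 V h1 h2).1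
  · have h1 : Zs.relIndex (Vs p q J) = B.relIndex J := (hV J h.nB.le le_rfl).2.1
    rwa [htop] at h1
  · intro V h1 h2
    exact (e5 V h1 h2).2

/-- decomposition of the elements of `V*`, `V = W B P` -/
theorem decomp (hq : LQx π ℓ 𝓓 n J A B P Z ν θA ϑ p i τ q κ Zs νs) {W : Subgroup Γ}
    {Ps : Subgroup Q} (hPs : ∀ b, b ∈ Ps ↔ b ∈ Vs p q (P ⊔ B) ∧ ∃ k : ℕ, orderOf b = ℓ ^ k)
    (hWA : W ≤ A) (hWP : ∀ d ∈ P, ∀ w ∈ W, d * w * d⁻¹ ∈ W)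
    (hkW : ∀ g, g ∈ kW κ Zs W ↔ ∃ a : A, (a : Γ) ∈ W ∧ ∃ z ∈ Zs, g = κ a * z) :
    ∀ g ∈ Vs p q (W ⊔ B ⊔ P), ∃ k ∈ kW κ Zs W, ∃ d ∈ Ps, g = k * d := by
  rintro g ⟨h, hh, rfl⟩
  obtain ⟨w, hw, b, hb, d, hd, h1⟩ := (memY hq.lv hWA hWP).1 hh
  obtain ⟨h₁, h2, h3⟩ := hq.kt.ka ⟨w, hWA hw⟩
  obtain ⟨h₂, h4, h5⟩ := hq.kt.kb b hb
  obtain ⟨h₃, h6, k, hk⟩ := lift_P hq hd
  have hc : p (h * (h₁ * h₂ * h₃)⁻¹) = 1 := by
    rw [map_mul, map_inv, map_mul, map_mul, h1, h2, h5, h6, mul_inv_cancel]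
  have hz := hq.kt.kp _ hc
  refine ⟨κ ⟨w, hWA hw⟩ * q (h * (h₁ * h₂ * h₃)⁻¹), (hkW _).2 ⟨_, hw, _, hz, rfl⟩, q h₃,
    (hPs _).2 ⟨⟨h₃, ?_, rfl⟩, k, hk⟩, ?_⟩
  · show p h₃ ∈ P ⊔ B
    rw [h6]
    exact (le_sup_left : P ≤ P ⊔ B) hd
  · rw [← hq.kt.zc _ hz, mul_assoc, ← h3, ← mul_one (q h₁), ← h4, ← map_mul, ← map_mul, ← map_mul,
      inv_mul_cancel_right]

/-- the index of `kW W` in `V*` -/
theorem rel_pow {K V Ps : Subgroup Q} (hP : IsPGroup ℓ Ps) (hPV : Ps ≤ V)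
    (hd : ∀ g ∈ V, ∃ k ∈ K, ∃ d ∈ Ps, g = k * d) : ∃ m, K.relIndex V = ℓ ^ m := by
  obtain ⟨m, hm⟩ := IsPGroup.iff_card.1 hP
  have h1 : K.relIndex V = K.relIndex Ps := rel_prod hPV hd
  have h2 : K.relIndex Ps ∣ ℓ ^ m := by
    rw [← hm]
    exact Subgroup.relIndex_dvd_card K Ps
  obtain ⟨k, -, hk⟩ := (Nat.dvd_prime_pow (Fact.out : ℓ.Prime)).1 h2
  exact ⟨k, h1.trans hk⟩

theorem rel_swap {K V Ps : Subgroup Q} (hKV : K ≤ V)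
    (hd : ∀ g ∈ V, ∃ k ∈ K, ∃ d ∈ Ps, g = k * d) : (Ps ⊓ K).relIndex K = Ps.relIndex V := by
  rw [Subgroup.inf_relIndex_right]
  symm
  apply rel_prod hKV
  intro g hg
  obtain ⟨k, hk, d, hd, h1⟩ := hd g⁻¹ (V.inv_mem hg)
  refine ⟨d⁻¹, Ps.inv_mem hd, k⁻¹, K.inv_mem hk, ?_⟩
  rw [← mul_inv_rev, ← h1, inv_inv]

/-- module LN -/
theorem ln (QG : T_QG) (LT : T_LT) : T_LNx := by
  intro F _ π hπ ℓ _ _ 𝓓 n Γ _ _ J A B P Z ν θA ϑ H _ _ p i τ Q _ _ q κ Zs νs hq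
    W Y Y' Ps hW hY hY' hPs
  have h := hq.lv
  have hBE : B ≤ P ⊔ B := le_sup_right
  have hZW : Z ≤ W := hW ▸ Z_le h
  have hWA : W ≤ A := hW ▸ inf_le_left
  have hWN : W ≤ Subgroup.normalizer (P : Set Γ) := hW ▸ inf_le_right
  have hPW : P ⊓ A ≤ W := by
    rw [hW]
    exact le_inf inf_le_right (inf_le_left.trans Subgroup.le_normalizer)
  have hWP : ∀ d ∈ P, ∀ w ∈ W, d * w * d⁻¹ ∈ W := hW ▸ P_nor h
  have hAP : ∀ d ∈ P, ∀ w ∈ A, d * w * d⁻¹ ∈ A := fun d hd w hw => conjA h (h.PJ hd) hw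
  have fa : Fa ℓ J A B P Z W p q κ Zs Ps := by
    rw [hW, hPs]
    exact facts QG LT hq
  have s1 : Y ⊓ Subgroup.normalizer ((P ⊔ B : Subgroup Γ) : Set Γ) = Y' := by
    rw [hY, hY', hW]
    exact step1 h
  have hEY' : P ⊔ B ≤ Y' := by
    rw [hY']
    exact sup_le le_sup_right (le_sup_right.trans le_sup_left)
  have hY'Y : Y' ≤ Y := by
    rw [← s1]
    exact inf_le_left
  have hYJ : Y ≤ J := hY ▸ h.nY.le
  have hAY : A ≤ Y := by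
    rw [hY]
    exact le_sup_left.trans le_sup_left
  have hWY' : W ≤ Y' := by
    rw [hY']
    exact le_sup_left.trans le_sup_left
  have hEY := hEY'.trans hY'Y
  have hpJ : ∀ a, p a ∈ J := fun a => by
    rw [← hq.kt.rng]
    exact ⟨a, rfl⟩
  -- step 2
  have s2 : Vs p q Y ⊓ Subgroup.normalizer (Ps : Set Q) = Vs p q Y' := by
    rw [fa.VN Y hEY hYJ, s1]
  have s2' : kW κ Zs A ⊓ Subgroup.normalizer (Ps : Set Q) = kW κ Zs W := by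
    ext g
    constructor
    · rintro ⟨h1, h2⟩
      obtain ⟨a, z, hz, rfl⟩ := (fa.mkA g).1 h1
      obtain ⟨x, hx1, hx2⟩ := lift_k hq a hz
      have h3 : q x ∈ Subgroup.normalizer (Ps : Set Q) := by
        rw [hx2]
        exact h2
      rw [fa.nor, hx1] at h3
      rw [fa.mkW' a z hz, hW]
      exact ⟨a.2, key h a.2 fun u hu => nor_conj h3 ((le_sup_left : P ≤ P ⊔ B) hu)⟩
    · intro h1
      obtain ⟨a, ha, z, hz, rfl⟩ := (fa.mkW g).1 h1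
      obtain ⟨x, hx1, hx2⟩ := lift_k hq a hz
      refine ⟨(fa.mkA _).2 ⟨a, z, hz, rfl⟩, ?_⟩
      rw [← hx2]
      apply (fa.nor x).2
      rw [hx1]
      exact nor_PB h (h.nA.le a.2) (hWN ha)
  -- step 3
  have nA : NIn (kW κ Zs A) ⊤ := by
    refine ⟨le_top, ?_⟩
    intro u _ g hg
    obtain ⟨x, rfl⟩ := hq.kt.sur u
    obtain ⟨a, z, hz, rfl⟩ := (fa.mkA g).1 hg
    have ha' : p x * a * (p x)⁻¹ ∈ A := conjA h (hpJ x) a.2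
    refine (fa.mkA _).2 ⟨⟨_, ha'⟩, z, hz, ?_⟩
    rw [hq.kt.cj x a ⟨_, ha'⟩ rfl]
    have h1 := hq.kt.zc z hz (q x)⁻¹
    calc q x * (κ a * z) * (q x)⁻¹ = q x * κ a * (z * (q x)⁻¹) := by group
      _ = q x * κ a * (q x)⁻¹ * z := by rw [h1]; group
  have nY : NIn (Vs p q Y) ⊤ := by
    refine ⟨le_top, ?_⟩
    intro u _ g hg
    obtain ⟨x, rfl⟩ := hq.kt.sur u
    obtain ⟨y, hy, rfl⟩ := hg
    refine ⟨x * y * x⁻¹, ?_, by rw [map_mul, map_mul, map_inv]⟩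
    show p (x * y * x⁻¹) ∈ Y
    rw [map_mul, map_mul, map_inv, hY]
    have hy' : p y ∈ A ⊔ B ⊔ P := hY ▸ hy
    exact h.nY.nor _ (hpJ x) _ hy'
  have iY : ¬ ℓ ∣ (Vs p q Y).relIndex ⊤ := by
    have h1 := fa.rel Y J (hBE.trans hEY) hYJ le_rfl
    rw [fa.top] at h1
    rw [h1, hY]
    exact h.cop
  have norN : ∀ (K K' : Subgroup Q), NIn K ⊤ → K ⊓ Subgroup.normalizer (Ps : Set Q) = K' →
      NIn K' (Subgroup.normalizer (Ps : Set Q)) := by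
    intro K K' hK he
    refine ⟨he ▸ inf_le_right, ?_⟩
    intro u hu g hg
    rw [← he] at hg ⊢
    exact ⟨hK.nor u trivial g hg.1, (Subgroup.normalizer (Ps : Set Q)).mul_mem
      ((Subgroup.normalizer (Ps : Set Q)).mul_mem hu hg.2)
      ((Subgroup.normalizer (Ps : Set Q)).inv_mem hu)⟩
  have iY' : ¬ ℓ ∣ (Vs p q Y').relIndex (Subgroup.normalizer (Ps : Set Q)) := by
    intro hd
    apply iY
    rw [← s2, Subgroup.inf_relIndex_right] at hd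
    have hn : (Vs p q Y).Normal := ⟨fun g hg u => nY.nor u trivial g hg⟩
    rw [Subgroup.relIndex_top_right]
    exact hd.trans (Subgroup.relIndex_dvd_index_of_normal (Vs p q Y) _)
  -- step 4
  have p1 : Ps ≤ Vs p q Y' := by
    intro g hg
    exact Subgroup.map_mono (Subgroup.comap_mono hEY') ((fa.memP g).1 hg).1
  have p2 : Vs p q Y' ≤ Vs p q Y := Subgroup.map_mono (Subgroup.comap_mono hY'Y)
  have p3 : kW κ Zs A ≤ Vs p q Y := by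
    intro g hg
    obtain ⟨a, z, hz, rfl⟩ := (fa.mkA g).1 hg
    obtain ⟨x, hx1, hx2⟩ := lift_k hq a hz
    refine ⟨x, ?_, hx2⟩
    show p x ∈ Y
    rw [hx1]
    exact hAY a.2
  have p4 : kW κ Zs W ≤ Vs p q Y' := by
    intro g hg
    obtain ⟨a, ha, z, hz, rfl⟩ := (fa.mkW g).1 hg
    obtain ⟨x, hx1, hx2⟩ := lift_k hq a hz
    refine ⟨x, ?_, hx2⟩
    show p x ∈ Y'
    rw [hx1]
    exact hWY' ha
  have d1 : ∀ g ∈ Vs p q Y, ∃ k ∈ kW κ Zs A, ∃ d ∈ Ps, g = k * d := by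
    rw [hY]
    apply decomp hq fa.memP le_rfl hAP
    intro g
    rw [fa.mkA]
    constructor
    · rintro ⟨a, z, hz, rfl⟩
      exact ⟨a, a.2, z, hz, rfl⟩
    · rintro ⟨a, -, z, hz, rfl⟩
      exact ⟨a, z, hz, rfl⟩
  have d2 : ∀ g ∈ Vs p q Y', ∃ k ∈ kW κ Zs W, ∃ d ∈ Ps, g = k * d := by
    rw [hY']
    exact decomp hq fa.memP hWA hWP fa.mkW
  -- step 5
  have v1 : padicValNat ℓ (Ps.relIndex (Vs p q Y)) = padicValNat ℓ ((P ⊓ A).relIndex A) := by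
    rw [fa.val Y hEY hYJ, hY]
    exact core5 h h.ZA le_rfl inf_le_right hAP
  have v2 : padicValNat ℓ (Ps.relIndex (Vs p q Y')) = padicValNat ℓ ((P ⊓ A).relIndex W) := by
    rw [fa.val Y' hEY' (hY'Y.trans hYJ), hY']
    exact core5 h hZW hWA hPW hWP
  refine ⟨⟨s1, fun g hg => nor_PB h hg.1 hg.2, hZW⟩, ⟨s2, s2', ?_⟩, ⟨nA, nY, iY, ?_, ?_,
    norN _ _ nA s2', norN _ _ nY s2, iY'⟩, ⟨fa.pP, p1, p2, p3, p4, d1, d2,
    rel_pow fa.pP (p1.trans p2) d1, rel_pow fa.pP p1 d2⟩, ⟨?_, v1, ?_, v2⟩, ?_, ?_, ?_⟩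
  · intro x hx
    exact (fa.nor x).2 (nor_PB h (hpJ x) hx)
  · rw [fa.topr]
    exact h.idx
  · exact ⟨le_top, fun z hz g _ => hq.kt.zc z hz g, hq.kt.one, hq.kt.mul⟩
  · rw [rel_swap p3 d1, v1]
  · rw [rel_swap p4 d2, v2]
  · intro hz
    refine Pool.Agent.H4.LO.QA.qa_aux QG ℓ 𝓓 h.cl Γ B J P ϑ H p i τ Q q Zs νs h.cls h.pP h.PJ
      hq.qt Ps hPs ?_
    intro z h1 h2
    rw [hz z h1 h2]
    exact hq.kt.one
  · intro w hw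
    obtain ⟨x, hx, rfl⟩ := ((fa.memP w).1 hw).1
    obtain ⟨d, hd, b, hb, h1⟩ := (memE' h).1 hx
    obtain ⟨y, hy1, hy2⟩ := hq.kt.kb b⁻¹ (B.inv_mem hb)
    refine ⟨x * y, ?_, by rw [map_mul, hy1, mul_one]⟩
    rw [map_mul, h1, hy2, mul_inv_cancel_right]
    exact hd
  · intro g hg
    obtain ⟨x, hx, hk⟩ := lift_P hq hg
    refine ⟨x, hx, (fa.memP _).2 ⟨⟨x, ?_, rfl⟩, hk⟩⟩
    show p x ∈ P ⊔ B
    rw [hx]
    exact (le_sup_left : P ≤ P ⊔ B) hg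

end

end Pool.Agent.H4.LO.LN
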